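import Pool.Agent.H918R3.TB1

set_option autoImplicit false

/-!
The Legendre curve with ramified parameter over a field of residue characteristic two has no nonzero points
that are divisible by all powers of two (helper624, for project LG of helper791).
-/

namespace Pool.Agent.Y624.LG

open Polynomial WeierstrassCurve Pool.Agent.H918R3 Pool.Agent.H918R3.TB1

variable {L : Type} [NormedField L] [IsUltrametricDist L]

lemma norm_sub_of_lt {a b : L} (h : ‖b‖ < ‖a‖) : ‖a - b‖ = ‖a‖ := by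
  have h1 : ‖a‖ ≠ ‖-b‖ := by
    rw [norm_neg]
    exact h.ne'
  have h2 := IsUltrametricDist.norm_add_eq_max_of_norm_ne_norm h1
  rw [norm_neg, max_eq_left h.le, ← sub_eq_add_neg] at h2
  exact h2

omit [IsUltrametricDist L] in
lemma sq_norm {π : L} (hπ : π ≠ 0) (hπ1 : ‖π‖ < 1) (hv : ∀ w : L, w ≠ 0 → ∃ n : ℤ, ‖w‖ = ‖π‖ ^ n)
    (w : L) (m : ℕ) (h : ‖w * w‖ = ‖π‖ ^ (-(2 * (m : ℤ) + 1))) : False := by
  have hp : 0 < ‖π‖ := norm_pos_iff.2 hπ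
  have hw : w ≠ 0 := by
    rintro rfl
    rw [mul_zero, norm_zero] at h
    exact (zpow_pos hp _).ne h
  obtain ⟨n, hn⟩ := hv w hw
  rw [norm_mul, hn, ← zpow_add₀ hp.ne'] at h
  have h3 := zpow_right_injective₀ hp hπ1.ne h
  omega

omit [NormedField L] [IsUltrametricDist L] in
lemma sq_dl {K : Type*} [Field K] [DecidableEq K] (h2 : (2 : K) ≠ 0) {e1 e2 e3 e f g : K}
    (hp : crv e f g = crv e1 e2 e3) (hef : e ≠ f) (heg : e ≠ g) (hfg : f ≠ g) (R : Pt e1 e2 e3) :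
    IsSquare (dl e f g (R + R)) := by
  obtain ⟨n1, s, hs⟩ := dl_add h2 hp hef heg hfg R R
  refine ⟨s / dl e f g R, ?_⟩
  rw [div_mul_div_comm, ← hs, mul_div_assoc, div_self (mul_ne_zero n1 n1), mul_one]

open scoped Classical in
lemma dbl_far {π : L} (hπ : π ≠ 0) (hπ1 : ‖π‖ < 1) (hv : ∀ w : L, w ≠ 0 → ∃ n : ℤ, ‖w‖ = ‖π‖ ^ n)
    (h2 : (2 : L) ≠ 0) (e1 e2 e3 : L) (m : ℕ) (h12 : e2 - e1 = 1)
    (h13 : ‖e3 - e1‖ = ‖π‖ ^ (-(2 * (m : ℤ) + 1))) (n12 : e1 ≠ e2) (n13 : e1 ≠ e3) (n23 : e2 ≠ e3)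
    (R : Pt e1 e2 e3) (X Y : L) (h : (crv e1 e2 e3).toAffine.Nonsingular X Y)
    (hR : R + R = Affine.Point.some X Y h) : ‖e3 - e1‖ < ‖X - e1‖ := by
  have s1 := sq_dl h2 (e := e1) (f := e2) (g := e3) rfl n12 n13 n23 R
  rw [hR, dl_eq, dlW_some] at s1
  have hc : crv e3 e1 e2 = crv e1 e2 e3 := by
    unfold crv
    congr 1 <;> ring
  have s3 := sq_dl h2 (e1 := e1) (e2 := e2) (e3 := e3) (e := e3) (f := e1) (g := e2) hc n13.symm
    n23.symm n12 R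
  rw [hR, dl_eq, dlW_some] at s3
  by_cases hx : X = e1
  · rw [if_pos hx] at s1
    obtain ⟨w, hw⟩ := s1
    exfalso
    refine sq_norm hπ hπ1 hv w m ?_
    rw [← hw, ← h13]
    congr 1
    linear_combination (e3 - e1) * h12
  rw [if_neg hx] at s1
  obtain ⟨w, hw⟩ := s1
  by_cases hx3 : X = e3
  · exfalso
    refine sq_norm hπ hπ1 hv w m ?_
    rw [← hw, ← h13, hx3]
  rw [if_neg hx3] at s3
  obtain ⟨w', hw'⟩ := s3
  by_contra hlt
  rcases (not_lt.1 hlt).lt_or_eq with h1 | h1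
  · refine sq_norm hπ hπ1 hv w' m ?_
    rw [← hw', ← h13]
    have h3 := norm_sub_of_lt h1
    rw [← norm_neg]
    rw [← h3]
    congr 1
    ring
  · refine sq_norm hπ hπ1 hv w m ?_
    rw [← hw, h1, h13]

open scoped Classical in
lemma dbl_norm (h2 : (2 : L) ≠ 0) (e1 e2 e3 : L) (h12 : e2 - e1 = 1) (h13 : 1 < ‖e3 - e1‖)
    (X Y : L) (h : (crv e1 e2 e3).toAffine.Nonsingular X Y) (hX : ‖e3 - e1‖ < ‖X - e1‖) :
    ∃ (X' Y' : L) (h' : (crv e1 e2 e3).toAffine.Nonsingular X' Y'),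
      (Affine.Point.some X Y h + Affine.Point.some X Y h : Pt e1 e2 e3) = Affine.Point.some X' Y' h' ∧
      ‖X' - e1‖ * ‖(2 : L)‖ ^ 2 = ‖X - e1‖ := by
  have q1 := crv_eqn.mp h.1
  have hX1 : 1 < ‖X - e1‖ := h13.trans hX
  have hX0 : 0 < ‖X - e1‖ := zero_lt_one.trans hX1
  have m2 : ‖X - e2‖ = ‖X - e1‖ := by
    have h3 : ‖(1 : L)‖ < ‖X - e1‖ := by rwa [norm_one]
    rw [← norm_sub_of_lt h3]
    congr 1
    linear_combination -h12
  have m3 : ‖X - e3‖ = ‖X - e1‖ := by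
    rw [← norm_sub_of_lt hX]
    congr 1
    ring
  have mY : ‖Y‖ ^ 2 = ‖X - e1‖ ^ 3 := by
    rw [← norm_pow, q1, norm_mul, norm_mul, m2, m3]
    ring
  have hY0 : Y ≠ 0 := by
    rintro rfl
    rw [norm_zero, zero_pow two_ne_zero] at mY
    exact (pow_pos hX0 3).ne mY
  have h2y : 2 * Y ≠ 0 := mul_ne_zero h2 hY0
  have hneg : Y ≠ (crv e1 e2 e3).toAffine.negY X Y := by
    simp only [Affine.negY, crv]
    intro hh
    apply h2y
    linear_combination hh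
  refine ⟨_, _, _, Affine.Point.add_self_of_Y_ne hneg, ?_⟩
  set s := (crv e1 e2 e3).toAffine.slope X X Y Y with hs
  have hslope : s * (2 * Y) =
      (X - e2) * (X - e3) + (X - e1) * (X - e3) + (X - e1) * (X - e2) := by
    rw [hs, Affine.slope_of_Y_ne rfl hneg]
    simp only [Affine.negY, crv]
    have e3' : Y - (-Y - 0 * X - 0) = 2 * Y := by ring
    rw [e3', div_mul_cancel₀ _ h2y]
    ring
  have hX' : (crv e1 e2 e3).toAffine.addX X X s = s ^ 2 + (e1 + e2 + e3) - 2 * X := by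
    simp only [Affine.addX, crv]
    ring
  rw [hX']
  have key : (s ^ 2 + (e1 + e2 + e3) - 2 * X - e1) * (2 * Y) ^ 2 =
      ((X - e1) ^ 2 - (e3 - e1)) ^ 2 := by
    have h5 : (s * (2 * Y)) ^ 2 =
      ((X - e2) * (X - e3) + (X - e1) * (X - e3) + (X - e1) * (X - e2)) ^ 2 := by rw [hslope]
    have h6 : (e1 - e2) * (e1 - e3) = e3 - e1 := by linear_combination (e3 - e1) * h12
    rw [← h6]
    linear_combination h5 + (4 * (e2 + e3 - 2 * X)) * q1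
  have hk := congrArg (fun z : L => ‖z‖) key
  simp only [norm_mul, norm_pow] at hk
  have hlt : ‖e3 - e1‖ < ‖(X - e1) ^ 2‖ := by
    rw [norm_pow]
    nlinarith
  rw [norm_sub_of_lt hlt, norm_pow, mul_pow, mY] at hk
  have h3 : (‖X - e1‖ ^ 3) ≠ 0 := (pow_pos hX0 3).ne'
  apply mul_right_cancel₀ h3
  calc ‖s ^ 2 + (e1 + e2 + e3) - 2 * X - e1‖ * ‖(2 : L)‖ ^ 2 * ‖X - e1‖ ^ 3 =
      ‖s ^ 2 + (e1 + e2 + e3) - 2 * X - e1‖ * (‖(2 : L)‖ ^ 2 * ‖X - e1‖ ^ 3) := by ring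
    _ = (‖X - e1‖ ^ 2) ^ 2 := hk
    _ = ‖X - e1‖ * ‖X - e1‖ ^ 3 := by ring

open scoped Classical in
lemma iter (h2 : (2 : L) ≠ 0) (h21 : ‖(2 : L)‖ < 1) (e1 e2 e3 : L) (h12 : e2 - e1 = 1)
    (h13 : 1 < ‖e3 - e1‖) (n : ℕ) :
    ∀ (X Y : L) (h : (crv e1 e2 e3).toAffine.Nonsingular X Y), ‖e3 - e1‖ < ‖X - e1‖ →
    ∃ (X' Y' : L) (h' : (crv e1 e2 e3).toAffine.Nonsingular X' Y'),
      (2 ^ n) • (Affine.Point.some X Y h : Pt e1 e2 e3) = Affine.Point.some X' Y' h' ∧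
      ‖X' - e1‖ * (‖(2 : L)‖ ^ 2) ^ n = ‖X - e1‖ := by
  induction n with
  | zero =>
    intro X Y h hX
    exact ⟨X, Y, h, by rw [pow_zero, one_smul], by rw [pow_zero, mul_one]⟩
  | succ n ih =>
    intro X Y h hX
    obtain ⟨X1, Y1, h1, a1, n1⟩ := dbl_norm h2 e1 e2 e3 h12 h13 X Y h hX
    have h4 : ‖(2 : L)‖ ^ 2 < 1 := pow_lt_one₀ (norm_nonneg _) h21 two_ne_zero
    have h5 : ‖e3 - e1‖ < ‖X1 - e1‖ := by
      refine hX.trans_le ?_
      rw [← n1]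
      exact mul_le_of_le_one_right (norm_nonneg _) h4.le
    obtain ⟨X2, Y2, h3, a2, n2⟩ := ih X1 Y1 h1 h5
    refine ⟨X2, Y2, h3, ?_, ?_⟩
    · rw [pow_succ, mul_smul, two_smul, a1]
      exact a2
    · rw [pow_succ, ← mul_assoc, n2, n1]

open scoped Classical in
theorem core (L : Type) [NormedField L] [IsUltrametricDist L] [CharZero L] (h21 : ‖(2 : L)‖ < 1)
    (π : L) (hπ : π ≠ 0) (hπ1 : ‖π‖ < 1) (hv : ∀ w : L, w ≠ 0 → ∃ n : ℤ, ‖w‖ = ‖π‖ ^ n)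
    (e1 e2 e3 : L) (m : ℕ) (h12 : e2 - e1 = 1) (h13 : ‖e3 - e1‖ = ‖π‖ ^ (-(2 * (m : ℤ) + 1)))
    (P : Pt e1 e2 e3) (hP : ∀ n : ℕ, ∃ R : Pt e1 e2 e3, (2 ^ n) • R = P) : P = 0 := by
  have h2 : (2 : L) ≠ 0 := two_ne_zero
  have hp : 0 < ‖π‖ := norm_pos_iff.2 hπ
  have ht : 1 < ‖e3 - e1‖ := by
    rw [h13]
    refine one_lt_zpow_of_neg₀ hp hπ1 ?_
    omega
  have n12 : e1 ≠ e2 := by
    rintro rfl
    rw [sub_self] at h12
    exact zero_ne_one h12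
  have n13 : e1 ≠ e3 := by
    rintro rfl
    rw [sub_self, norm_zero] at ht
    linarith
  have n23 : e2 ≠ e3 := by
    rintro rfl
    rw [h12, norm_one] at ht
    exact lt_irrefl _ ht
  by_contra hP0
  obtain ⟨x, y, hxy, hPs⟩ : ∃ (x y : L) (h : (crv e1 e2 e3).toAffine.Nonsingular x y),
      P = Affine.Point.some x y h := by
    cases P with
    | zero => exact absurd rfl hP0
    | some x y h => exact ⟨x, y, h, rfl⟩
  have h4 : ‖(2 : L)‖ ^ 2 < 1 := pow_lt_one₀ (norm_nonneg _) h21 two_ne_zero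
  obtain ⟨n, hn⟩ := exists_pow_lt_of_lt_one
    (show 0 < 1 / (‖x - e1‖ + 1) by have := norm_nonneg (x - e1); positivity) h4
  obtain ⟨R, hR⟩ := hP (n + 1)
  have hR' : (2 ^ n) • (R + R) = P := by
    rw [← two_smul ℕ R, ← mul_smul, ← pow_succ]
    exact hR
  obtain ⟨X, Y, hXY, hT⟩ : ∃ (X Y : L) (h : (crv e1 e2 e3).toAffine.Nonsingular X Y),
      R + R = Affine.Point.some X Y h := by
    cases hRR : R + R with
    | zero =>
      exfalso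
      apply hP0
      rw [← hR', hRR]
      exact smul_zero _
    | some x y h => exact ⟨x, y, h, rfl⟩
  have hfar := dbl_far hπ hπ1 hv h2 e1 e2 e3 m h12 h13 n12 n13 n23 R X Y hXY hT
  obtain ⟨X', Y', h', a1, a2⟩ := iter h2 h21 e1 e2 e3 h12 ht n X Y hXY hfar
  rw [← hT, hR', hPs] at a1
  have hxX : x = X' := by
    injection a1
  rw [← hxX] at a2
  have h5 : 1 < ‖x - e1‖ * (‖(2 : L)‖ ^ 2) ^ n := by
    rw [a2]
    exact ht.trans hfar
  have h6 : 0 ≤ ‖x - e1‖ := norm_nonneg _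
  rw [lt_div_iff₀ (by linarith)] at hn
  have h7 : 0 ≤ (‖(2 : L)‖ ^ 2) ^ n := by positivity
  nlinarith

end Pool.Agent.Y624.LG
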